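import Mathlib.Algebra.Ring.Int.Defs
import Mathlib.Order.Lattice.Nat
import Mathlib.Combinatorics.SimpleGraph.Connectivity.Connected

/-!
Finite multigraphs, chip-firing equivalence, Baker-Norine rank, divisorial gonality and
regular subdivision.
-/

set_option autoImplicit false

namespace Pool.Agent.MP_d0d5df_co

/-- A multigraph with vertex type `V` and edge type `E`: every edge has two end points. -/
structure MGraph (V E : Type) where
  src : E → V
  tgt : E → V

variable {V E : Type}

/-- no loops -/
def Loopless (G : MGraph V E) : Prop := ∀ e, G.src e ≠ G.tgt e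

/-- the underlying simple graph is connected -/
def IsConnected (G : MGraph V E) : Prop :=
  (SimpleGraph.fromRel fun a b => ∃ e, G.src e = a ∧ G.tgt e = b).Connected

/-- the graph Laplacian: sum, over the edges at `v`, of `f v` minus `f` of the other end -/
def laplacian [Fintype E] [DecidableEq V] (G : MGraph V E) (f : V → ℤ) (v : V) : ℤ :=
  ∑ e, ((if G.src e = v then f v - f (G.tgt e) else 0)
    + (if G.tgt e = v then f v - f (G.src e) else 0))

/-- `D` is equivalent to an effective divisor -/
def EquivEffective [Fintype E] [DecidableEq V] (G : MGraph V E) (D : V → ℤ) : Prop :=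
  ∃ D' : V → ℤ, 0 ≤ D' ∧ ∃ f : V → ℤ, D - D' = laplacian G f

open Classical in
/-- the Baker-Norine rank -/
noncomputable def bnRank [Fintype V] [Fintype E] [DecidableEq V] (G : MGraph V E) (D : V → ℤ) : ℤ :=
  if EquivEffective G D then
    ((sSup {r : ℕ | ∀ F : V → ℤ, 0 ≤ F → ∑ v, F v = r → EquivEffective G (D - F)} : ℕ) : ℤ)
  else -1

/-- divisorial gonality -/
noncomputable def dgon [Fintype V] [Fintype E] [DecidableEq V] (G : MGraph V E) : ℕ :=
  sInf {d : ℕ | ∃ D : V → ℤ, 0 ≤ D ∧ ∑ v, D v = d ∧ 1 ≤ bnRank G D}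

/-- the `j`-th vertex (`0 ≤ j ≤ k`) of the path of `k` edges that replaces the edge `e` -/
def node (G : MGraph V E) (k : ℕ) (e : E) (j : ℕ) : V ⊕ E × Fin (k - 1) :=
  if j = 0 then Sum.inl (G.src e)
  else if h : j - 1 < k - 1 then Sum.inr (e, ⟨j - 1, h⟩)
  else Sum.inl (G.tgt e)

/-- the `k`-regular subdivision -/
def subdiv (G : MGraph V E) (k : ℕ) : MGraph (V ⊕ E × Fin (k - 1)) (E × Fin k) where
  src p := node G k p.1 p.2
  tgt p := node G k p.1 (p.2 + 1)

end Pool.Agent.MP_d0d5df_co
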