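import Mathlib.Algebra.Order.Ring.Nat
import Mathlib.Algebra.Order.Sub.Basic
import Mathlib.Tactic.Ring.RingNF
import Mathlib.Data.Nat.SuccPred
import Mathlib.Algebra.Ring.Pi
import Mathlib.Algebra.Order.BigOperators.Group.Finset
import Mathlib.Algebra.BigOperators.Fin
import Mathlib.Data.ZMod.Defs
import Mathlib.Data.Int.ConditionallyCompleteOrder
import Pool.Agent.MP_d0d5df_co.Defs

set_option autoImplicit false

open Finset

namespace Pool.Agent.MP_d0d5df_co

variable {V E : Type} [Fintype V] [Fintype E] [DecidableEq V]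

lemma sum_laplacian (G : MGraph V E) (f : V → ℤ) : ∑ v, laplacian G f v = 0 := by
  unfold laplacian
  rw [Finset.sum_comm]
  refine Finset.sum_eq_zero fun e _ => ?_
  rw [Finset.sum_add_distrib, Finset.sum_ite_eq, Finset.sum_ite_eq]
  simp

/-- `D` can be moved to an effective divisor with a chip on `t`. -/
def Reach (G : MGraph V E) (D : V → ℤ) (t : V) : Prop :=
  ∃ f : V → ℤ, ∀ v, (if v = t then 1 else 0) ≤ D v - laplacian G f v

omit [Fintype V] in
lemma equivEffective_iff (G : MGraph V E) (D : V → ℤ) :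
    EquivEffective G D ↔ ∃ f : V → ℤ, ∀ v, 0 ≤ D v - laplacian G f v := by
  constructor
  · rintro ⟨D', h0, f, hf⟩
    refine ⟨f, fun v => ?_⟩
    have := congrFun hf v
    have h1 := h0 v
    simp only [Pi.sub_apply, Pi.zero_apply] at this h1
    omega
  · rintro ⟨f, hf⟩
    refine ⟨D - laplacian G f, fun v => hf v, f, by simp⟩

lemma deg_nonneg (G : MGraph V E) (D : V → ℤ) (h : EquivEffective G D) : 0 ≤ ∑ v, D v := by
  obtain ⟨f, hf⟩ := (equivEffective_iff G D).1 h
  have : 0 ≤ ∑ v, (D v - laplacian G f v) := Finset.sum_nonneg fun v _ => hf v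
  rwa [Finset.sum_sub_distrib, sum_laplacian, sub_zero] at this

lemma one_le_rank_iff [Nonempty V] (G : MGraph V E) (D : V → ℤ) (hD : 0 ≤ D) :
    1 ≤ bnRank G D ↔ ∀ t, Reach G D t := by
  have hE : EquivEffective G D := ⟨D, hD, 0, by funext v; simp [laplacian]⟩
  unfold bnRank
  rw [if_pos hE]
  set S : Set ℕ := {r : ℕ | ∀ F : V → ℤ, 0 ≤ F → ∑ v, F v = r → EquivEffective G (D - F)} with hS
  have hbdd : BddAbove S := by
    refine ⟨(∑ v, D v).toNat, fun r hr => ?_⟩
    obtain ⟨v0⟩ := ‹Nonempty V›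
    have h1 := hr (fun v => if v = v0 then r else 0) (fun v => by
      simp only [Pi.zero_apply]; split_ifs <;> omega) (by simp)
    have h2 := deg_nonneg G _ h1
    simp only [Pi.sub_apply, Finset.sum_sub_distrib, Finset.sum_ite_eq', mem_univ, if_true] at h2
    omega
  constructor
  · intro h t
    have h1 : 1 ≤ sSup S := by exact_mod_cast h
    have hne : S.Nonempty := by
      by_contra hne
      rw [Set.not_nonempty_iff_eq_empty] at hne
      rw [hne] at h1
      simp at h1
    have hmem := Nat.sSup_mem hne hbdd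
    have h2 := hmem (fun v => if v = t then (sSup S : ℕ) else 0) (fun v => by
      simp only [Pi.zero_apply]; split_ifs <;> omega) (by simp)
    obtain ⟨f, hf⟩ := (equivEffective_iff G _).1 h2
    refine ⟨f, fun v => ?_⟩
    have := hf v
    simp only [Pi.sub_apply] at this
    split_ifs at this ⊢ <;> omega
  · intro h
    have h1 : 1 ∈ S := by
      intro F hF hs
      have : ∃ t, 1 ≤ F t := by
        by_contra hc
        push Not at hc
        have : ∑ v, F v ≤ 0 := Finset.sum_nonpos fun v _ => by have := hc v; omega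
        omega
      obtain ⟨t, ht⟩ := this
      have hF' : ∀ v, F v ≤ if v = t then 1 else 0 := by
        intro v
        rw [← Finset.add_sum_erase univ _ (mem_univ t)] at hs
        have h0 : 0 ≤ ∑ x ∈ univ.erase t, F x := Finset.sum_nonneg fun x _ => hF x
        split_ifs with hv
        · subst hv; push_cast at hs; omega
        · have := Finset.single_le_sum (f := F) (s := univ.erase t) (fun x _ => hF x)
            (Finset.mem_erase.2 ⟨hv, mem_univ v⟩)
          push_cast at hs; omega
      obtain ⟨f, hf⟩ := h t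
      refine (equivEffective_iff G _).2 ⟨f, fun v => ?_⟩
      have a1 := hf v
      have a2 := hF' v
      simp only [Pi.sub_apply]
      omega
    have := le_csSup hbdd h1
    exact_mod_cast this

lemma dgon_le [Nonempty V] (G : MGraph V E) (D : V → ℤ) (hD : 0 ≤ D) (d : ℕ) (hd : ∑ v, D v = d)
    (h : ∀ t, Reach G D t) : dgon G ≤ d :=
  Nat.sInf_le ⟨D, hD, hd, (one_le_rank_iff G D hD).2 h⟩

lemma lt_dgon [Nonempty V] (G : MGraph V E) (d : ℕ)
    (h : ∀ D : V → ℤ, 0 ≤ D → ∑ v, D v ≤ d → (∀ t, Reach G D t) → False) : d < dgon G := by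
  have hne : {d : ℕ | ∃ D : V → ℤ, 0 ≤ D ∧ ∑ v, D v = d ∧ 1 ≤ bnRank G D}.Nonempty := by
    refine ⟨Fintype.card V, fun _ => 1, fun _ => by simp, by simp, ?_⟩
    refine (one_le_rank_iff G _ fun _ => by simp).2 fun t => ⟨0, fun v => ?_⟩
    have : laplacian G 0 v = 0 := by simp [laplacian]
    rw [this]
    split_ifs <;> simp
  obtain ⟨D, h0, h1, h2⟩ := Nat.sInf_mem hne
  by_contra hc
  push Not at hc
  refine h D h0 ?_ ((one_le_rank_iff G D h0).1 h2)
  rw [h1]
  exact_mod_cast hc

section sub
variable [DecidableEq E]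

omit [Fintype V] in
lemma lap_inl (G : MGraph V E) (f : V ⊕ E × Fin (3 - 1) → ℤ) (v : V) :
    laplacian (subdiv G 3) f (Sum.inl v)
      = ∑ e, ((if G.src e = v then f (Sum.inl v) - f (Sum.inr (e, 0)) else 0)
        + (if G.tgt e = v then f (Sum.inl v) - f (Sum.inr (e, 1)) else 0)) := by
  unfold laplacian
  rw [Fintype.sum_prod_type]
  refine Finset.sum_congr rfl fun e _ => ?_
  simp [Fin.sum_univ_three, subdiv, node]

omit [Fintype V] in
lemma lap_inr0 (G : MGraph V E) (f : V ⊕ E × Fin (3 - 1) → ℤ) (e : E) :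
    laplacian (subdiv G 3) f (Sum.inr (e, 0))
      = 2 * f (Sum.inr (e, 0)) - f (Sum.inl (G.src e)) - f (Sum.inr (e, 1)) := by
  unfold laplacian
  rw [Fintype.sum_prod_type, Finset.sum_eq_single e]
  · simp [Fin.sum_univ_three, subdiv, node]
    ring
  · intro b _ hb
    simp [Fin.sum_univ_three, subdiv, node, hb]
  · simp

omit [Fintype V] in
lemma lap_inr1 (G : MGraph V E) (f : V ⊕ E × Fin (3 - 1) → ℤ) (e : E) :
    laplacian (subdiv G 3) f (Sum.inr (e, 1))
      = 2 * f (Sum.inr (e, 1)) - f (Sum.inr (e, 0)) - f (Sum.inl (G.tgt e)) := by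
  unfold laplacian
  rw [Fintype.sum_prod_type, Finset.sum_eq_single e]
  · simp [Fin.sum_univ_three, subdiv, node]
    ring
  · intro b _ hb
    simp [Fin.sum_univ_three, subdiv, node, hb]
  · simp

end sub

omit [Fintype V] in
/-- The Laplacian in terms of edge multiplicities. -/
lemma laplacian_eq_mult [Fintype V] (G : MGraph V E) (f : V → ℤ) (v : V) :
    laplacian G f v = ∑ w, (∑ e, ((if G.src e = v ∧ G.tgt e = w then (1 : ℤ) else 0)
      + (if G.tgt e = v ∧ G.src e = w then 1 else 0))) * (f v - f w) := by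
  unfold laplacian
  simp only [Finset.sum_mul]
  rw [Finset.sum_comm]
  refine Finset.sum_congr rfl fun e _ => ?_
  simp only [add_mul, Finset.sum_add_distrib, ite_and, ite_mul, one_mul, zero_mul]
  congr 1
  · split_ifs <;> simp
  · split_ifs <;> simp

end Pool.Agent.MP_d0d5df_co
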