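import Mathlib.Tactic.ToAdditive
import Mathlib.Order.RelClasses
import Mathlib.Tactic.Common
import Mathlib.CategoryTheory.Category.Init

/-!
The finite check behind the lower bound: with at most 8 chips, one on each vertex of the first
triple, and levels `ch, c1, c2, c3` below the first triple, not every vertex can be reached.
-/

set_option autoImplicit false
set_option maxRecDepth 100000

namespace Pool.Agent.MP_d0d5df_co

def allLe : ℕ → (ℕ → Bool) → Bool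
  | 0, f => f 0
  | n + 1, f => f (n + 1) && allLe n f

def anyLe : ℕ → (ℕ → Bool) → Bool
  | 0, f => f 0
  | n + 1, f => f (n + 1) || anyLe n f

lemma allLe_spec : ∀ (n : ℕ) (f : ℕ → Bool), allLe n f = true → ∀ i, i ≤ n → f i = true
  | 0, f, h, i, hi => by
    obtain rfl : i = 0 := by omega
    exact h
  | n + 1, f, h, i, hi => by
    simp only [allLe, Bool.and_eq_true] at h
    by_cases e : i = n + 1
    · rw [e]; exact h.1
    · exact allLe_spec n f h.2 i (by omega)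

lemma anyLe_spec : ∀ (n : ℕ) (f : ℕ → Bool) (i : ℕ), i ≤ n → f i = true → anyLe n f = true
  | 0, f, i, hi, h => by
    obtain rfl : i = 0 := by omega
    exact h
  | n + 1, f, i, hi, h => by
    simp only [anyLe, Bool.or_eq_true]
    by_cases e : i = n + 1
    · left; rw [← e]; exact h
    · right; exact anyLe_spec n f i (by omega) h

/-- feasibility at the vertices other than 1, 2, 3; the numbers `t0 ...` are the demands -/
def feas (d0 d4 d5 d6 d7 d8 d9 d10 d11 d12 ch c1 c2 c3 : ℕ) : Bool :=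
  Nat.ble c3 (d6 + c1) && Nat.ble c1 (d12 + c3) && Nat.ble c1 (d8 + c2) && Nat.ble c2 (d11 + c3)
    && Nat.ble (ch + c2) (d4 + 2 * c1) && Nat.ble (ch + c3) (d7 + 2 * c2)
    && Nat.ble ch (d10 + 2 * c3) && Nat.ble (c1 + c2 + c3) (d0 + 4 * ch)
    && Nat.ble 0 (d5 + d9)

def reachB (d0 d1 d2 d3 d4 d5 d6 d7 d8 d9 d10 d11 d12 : ℕ) (hit : ℕ → ℕ → ℕ → ℕ → Bool) : Bool :=
  anyLe d1 fun ch => anyLe (d1 - ch) fun c1 => anyLe d3 fun c2 => anyLe d2 fun c3 =>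
    hit ch c1 c2 c3 && feas d0 d4 d5 d6 d7 d8 d9 d10 d11 d12 ch c1 c2 c3

def allReach (d0 d1 d2 d3 d4 d5 d6 d7 d8 d9 d10 d11 d12 : ℕ) : Bool :=
  Nat.ble 1 (d6 + d12)
  && reachB d0 d1 d2 d3 d4 d5 d6 d7 d8 d9 d10 d11 d12 (fun ch c1 c2 c3 =>
      Nat.ble (ch + c2 + 1) (d4 + 2 * c1) && Nat.ble 1 (d5 + c1) && Nat.ble (c3 + 1) (d6 + c1))
  && reachB d0 d1 d2 d3 d4 d5 d6 d7 d8 d9 d10 d11 d12 (fun ch c1 c2 c3 =>
      Nat.ble (ch + c3 + 1) (d7 + 2 * c2) && Nat.ble (c1 + 1) (d8 + c2) && Nat.ble 1 (d9 + c2))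
  && reachB d0 d1 d2 d3 d4 d5 d6 d7 d8 d9 d10 d11 d12 (fun ch c1 c2 c3 =>
      Nat.ble (ch + 1) (d10 + 2 * c3) && Nat.ble (c2 + 1) (d11 + c3) && Nat.ble (c1 + 1) (d12 + c3))

def check : Bool :=
  allLe 5 fun x6 => allLe (5 - x6) fun x12 => let s := x6 + x12
  allLe (5 - s) fun x1 => allLe (5 - s - x1) fun x2 => allLe (5 - s - x1 - x2) fun x3 =>
  let s := s + x1 + x2 + x3
  allLe (5 - s) fun x0 => allLe (5 - s - x0) fun x4 => allLe (5 - s - x0 - x4) fun x5 =>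
  let s := s + x0 + x4 + x5
  allLe (5 - s) fun x7 => allLe (5 - s - x7) fun x8 => allLe (5 - s - x7 - x8) fun x9 =>
  let s := s + x7 + x8 + x9
  allLe (5 - s) fun x10 => allLe (5 - s - x10) fun x11 =>
    !allReach x0 (x1 + 1) (x2 + 1) (x3 + 1) x4 x5 x6 x7 x8 x9 x10 x11 x12

lemma check_true : check = true := by decide +kernel

lemma not_allReach (d0 d1 d2 d3 d4 d5 d6 d7 d8 d9 d10 d11 d12 : ℕ) (h1 : 1 ≤ d1) (h2 : 1 ≤ d2)
    (h3 : 1 ≤ d3) (hs : d0 + d1 + d2 + d3 + d4 + d5 + d6 + d7 + d8 + d9 + d10 + d11 + d12 ≤ 8) :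
    allReach d0 d1 d2 d3 d4 d5 d6 d7 d8 d9 d10 d11 d12 = false := by
  obtain ⟨x1, rfl⟩ : ∃ x, d1 = x + 1 := ⟨d1 - 1, by omega⟩
  obtain ⟨x2, rfl⟩ : ∃ x, d2 = x + 1 := ⟨d2 - 1, by omega⟩
  obtain ⟨x3, rfl⟩ : ∃ x, d3 = x + 1 := ⟨d3 - 1, by omega⟩
  have a := check_true
  unfold check at a
  have a := allLe_spec _ _ a d6 (by omega)
  have a := allLe_spec _ _ a d12 (by omega)
  have a := allLe_spec _ _ a x1 (by omega)
  have a := allLe_spec _ _ a x2 (by omega)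
  have a := allLe_spec _ _ a x3 (by omega)
  have a := allLe_spec _ _ a d0 (by omega)
  have a := allLe_spec _ _ a d4 (by omega)
  have a := allLe_spec _ _ a d5 (by omega)
  have a := allLe_spec _ _ a d7 (by omega)
  have a := allLe_spec _ _ a d8 (by omega)
  have a := allLe_spec _ _ a d9 (by omega)
  have a := allLe_spec _ _ a d10 (by omega)
  have a := allLe_spec _ _ a d11 (by omega)
  simpa using a

lemma reachB_of (d0 d1 d2 d3 d4 d5 d6 d7 d8 d9 d10 d11 d12 : ℕ) (hit : ℕ → ℕ → ℕ → ℕ → Bool)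
    (ch c1 c2 c3 : ℕ) (b1 : ch + c1 ≤ d1) (b2 : c3 ≤ d2) (b3 : c2 ≤ d3)
    (hh : hit ch c1 c2 c3 = true)
    (hf : feas d0 d4 d5 d6 d7 d8 d9 d10 d11 d12 ch c1 c2 c3 = true) :
    reachB d0 d1 d2 d3 d4 d5 d6 d7 d8 d9 d10 d11 d12 hit = true := by
  unfold reachB
  refine anyLe_spec _ _ ch (by omega) (anyLe_spec _ _ c1 (by omega) (anyLe_spec _ _ c2 b3
    (anyLe_spec _ _ c3 b2 ?_)))
  rw [hh, hf]; rfl

end Pool.Agent.MP_d0d5df_co
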