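import Mathlib.Tactic.FinCases
import Pool.Agent.MP_d0d5df_co.Basic

/-!
The example: a hub `0`, four heavy triples `{1+3i, 2+3i, 3+3i}` (consecutive vertices joined by
nine parallel edges), one spoke from the hub to each triple, and six single edges that join the
triples pairwise.  Here: the third subdivision carries a divisor of degree 8 and positive rank.
-/

set_option autoImplicit false
set_option maxRecDepth 100000

open Finset

namespace Pool.Agent.MP_d0d5df_co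

def srcN (e : ℕ) : ℕ :=
  if e < 4 then 0 else if e < 8 then 1 + 3 * (e - 4) else if e < 10 then 3 + 3 * (e - 8)
  else 1 + 3 * ((e - 10) / 18) + (e - 10) / 9 % 2

def tgtN (e : ℕ) : ℕ :=
  if e < 4 then 1 + 3 * e else if e < 8 then 2 + 3 * ((e - 3) % 4) else if e < 10 then 9 + 3 * (e - 8)
  else 2 + 3 * ((e - 10) / 18) + (e - 10) / 9 % 2

def exG : MGraph (Fin 13) (Fin 82) where
  src e := Fin.ofNat 13 (srcN e)
  tgt e := Fin.ofNat 13 (tgtN e)

lemma exG_loopless : Loopless exG := by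
  unfold Loopless
  decide +kernel

lemma exG_connected : IsConnected exG := by
  unfold IsConnected
  have adj : ∀ e : Fin 82, (SimpleGraph.fromRel fun a b => ∃ e, exG.src e = a ∧ exG.tgt e = b).Reachable
      (exG.src e) (exG.tgt e) := fun e =>
    SimpleGraph.Adj.reachable (by
      rw [SimpleGraph.fromRel_adj]
      exact ⟨exG_loopless e, Or.inl ⟨e, rfl, rfl⟩⟩)
  refine (SimpleGraph.connected_iff_exists_forall_reachable _).2 ⟨0, fun w => ?_⟩
  fin_cases w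
  · exact SimpleGraph.Reachable.refl _
  · exact adj 0
  · exact (adj 0).trans (adj 10)
  · exact ((adj 0).trans (adj 10)).trans (adj 19)
  · exact adj 1
  · exact (adj 1).trans (adj 28)
  · exact ((adj 1).trans (adj 28)).trans (adj 37)
  · exact adj 2
  · exact (adj 2).trans (adj 46)
  · exact ((adj 2).trans (adj 46)).trans (adj 55)
  · exact adj 3
  · exact (adj 3).trans (adj 64)
  · exact ((adj 3).trans (adj 64)).trans (adj 73)

def idx : Fin 13 ⊕ Fin 82 × Fin (3 - 1) → ℕ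
  | Sum.inl v => v
  | Sum.inr p => 13 + 2 * p.1 + p.2

def divN (i : ℕ) : ℤ :=
  if i = 0 then 2 else if i = 21 ∨ i = 24 ∨ i = 26 ∨ i = 28 ∨ i = 29 ∨ i = 31 then 1 else 0

def baseTab : List (List ℤ) :=
  [[0,0,0,0,0,0,0,0,0,0,0,0,0,0,0,0,0,0,0,0,0,0,0,0,0,0,0,0,0,0,0,0,0],
   [1,0,0,0,1,1,1,1,1,1,1,1,1,0,0,1,1,1,1,1,1,1,1,1,1,1,1,1,1,1,1,1,1],
   [2,2,2,2,0,0,0,2,2,2,1,1,1,2,2,1,0,2,2,1,1,2,1,1,2,2,2,1,2,2,2,1,1],
   [1,1,1,1,0,0,0,1,1,1,1,1,1,1,1,0,0,1,1,1,1,1,0,0,1,1,1,1,1,1,1,1,1],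
   [2,2,2,2,1,1,1,0,0,0,2,2,2,2,2,1,1,1,0,2,2,2,1,1,1,1,2,2,2,2,1,2,2],
   [1,1,1,1,1,1,1,0,0,0,1,1,1,1,1,1,1,0,0,1,1,1,1,1,1,0,1,1,1,1,0,1,1],
   [2,2,2,2,2,2,2,1,1,1,0,0,0,2,2,2,2,1,1,1,0,2,2,2,2,1,1,1,2,2,1,2,1],
   [1,1,1,1,1,1,1,1,1,1,0,0,0,1,1,1,1,1,1,0,0,1,1,1,1,1,1,0,1,1,1,1,0],
   [2,1,1,1,2,2,2,2,2,2,2,2,2,1,0,2,2,2,2,2,2,2,2,2,2,2,2,2,2,2,2,2,2]]

def baseOf (t : ℕ) : ℕ :=
  if t < 33 then
    [0,1,1,1,2,2,3,4,5,4,6,7,6,1,8,3,2,5,4,7,6,0,3,3,0,5,0,7,0,0,5,0,7].getD t 0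
  else [1,2,4,6].getD (((t - 13) / 2 - 10) / 18) 0

def scriptN (t i : ℕ) : ℤ :=
  if i < 33 then (baseTab.getD (baseOf t) []).getD i 0
  else (baseTab.getD (baseOf t) []).getD (srcN ((i - 13) / 2)) 0
    - (if 33 ≤ t ∧ (t - 13) / 2 = (i - 13) / 2 then 1 else 0)

lemma idx_inj : ∀ a b, idx a = idx b → a = b := by
  rintro (a | ⟨a, i⟩) (b | ⟨b, j⟩) h <;> simp only [idx] at h
  · exact congrArg _ (Fin.ext h)
  · omega
  · omega
  · have h1 : a = b := Fin.ext (by omega)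
    have h2 : i = j := Fin.ext (by omega)
    rw [h1, h2]

lemma chk_inl : ∀ t : Fin 177, ∀ v : Fin 13,
    (if (v : ℕ) = t then 1 else 0) ≤ divN v -
      ∑ e : Fin 82, ((if exG.src e = v then scriptN t v - scriptN t (13 + 2 * e) else 0)
        + (if exG.tgt e = v then scriptN t v - scriptN t (13 + 2 * e + 1) else 0)) := by
  decide +kernel

lemma chk_inr : ∀ t : Fin 177, ∀ e : Fin 82,
    ((if 13 + 2 * (e : ℕ) = t then 1 else 0) ≤ divN (13 + 2 * e) -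
      (2 * scriptN t (13 + 2 * e) - scriptN t (exG.src e) - scriptN t (13 + 2 * e + 1))) ∧
    ((if 13 + 2 * (e : ℕ) + 1 = t then 1 else 0) ≤ divN (13 + 2 * e + 1) -
      (2 * scriptN t (13 + 2 * e + 1) - scriptN t (13 + 2 * e) - scriptN t (exG.tgt e))) := by
  decide +kernel

lemma idx_lt (a : Fin 13 ⊕ Fin 82 × Fin (3 - 1)) : idx a < 177 := by
  rcases a with a | ⟨a, i⟩ <;> simp only [idx] <;> omega

theorem upper : dgon (subdiv exG 3) ≤ 8 := by
  refine dgon_le _ (fun v => divN (idx v)) (fun v => ?_) 8 ?_ fun t => ?_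
  · simp only [Pi.zero_apply, divN]
    split_ifs <;> omega
  · decide +kernel
  · refine ⟨fun v => scriptN (idx t) (idx v), fun v => ?_⟩
    have hiff : (if v = t then (1 : ℤ) else 0) = if idx v = idx t then 1 else 0 := by
      by_cases h : v = t
      · simp [h]
      · rw [if_neg h, if_neg fun h' => h (idx_inj _ _ h')]
    rw [hiff]
    rcases v with v | ⟨e, j⟩
    · rw [lap_inl]
      exact chk_inl ⟨idx t, idx_lt t⟩ v
    · fin_cases j
      · have := (chk_inr ⟨idx t, idx_lt t⟩ e).1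
        exact (lap_inr0 exG (fun v => scriptN (idx t) (idx v)) e) ▸ this
      · have := (chk_inr ⟨idx t, idx_lt t⟩ e).2
        exact (lap_inr1 exG (fun v => scriptN (idx t) (idx v)) e) ▸ this

end Pool.Agent.MP_d0d5df_co
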