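import Mathlib.Tactic.Linarith.Frontend
import Mathlib.Data.Int.Star
import Mathlib.Algebra.Order.Ring.Star
import Mathlib.Tactic.Algebra.Basic
import Pool.Agent.MP_d0d5df_co.Upper
import Pool.Agent.MP_d0d5df_co.Check

/-!
The example has no divisor of degree at most 8 and positive rank.
-/

set_option autoImplicit false
set_option maxRecDepth 100000

open Finset

namespace Pool.Agent.MP_d0d5df_co

section gen
variable {V E : Type} [Fintype E] [DecidableEq V]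

lemma lap_mono (G : MGraph V E) (f h : V → ℤ) (c : ℤ) (v : V) (hle : ∀ w, f w - c ≤ h w)
    (hv : f v - c = h v) : laplacian G h v ≤ laplacian G f v := by
  unfold laplacian
  refine Finset.sum_le_sum fun e _ => ?_
  have h1 := hle (G.src e)
  have h2 := hle (G.tgt e)
  split_ifs <;> omega

def Feas (G : MGraph V E) (D f : V → ℤ) : Prop := ∀ v, 0 ≤ D v - laplacian G f v

lemma merge (G : MGraph V E) (D f g : V → ℤ) (hf : Feas G D f) (hg : Feas G D g) (a : V) :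
    ∃ h : V → ℤ, Feas G D h ∧ h a = 0 ∧ (∀ w, f w - f a ≤ h w) ∧ (∀ w, g w - g a ≤ h w) ∧
      ∀ v, f v = f a → g v = g a →
        laplacian G h v ≤ laplacian G f v ∧ laplacian G h v ≤ laplacian G g v := by
  refine ⟨fun w => max (f w - f a) (g w - g a), fun v => ?_, by simp, fun w => le_max_left _ _,
    fun w => le_max_right _ _, fun v h1 h2 => ⟨?_, ?_⟩⟩
  · rcases le_total (f v - f a) (g v - g a) with h | h
    · have := lap_mono G g (fun w => max (f w - f a) (g w - g a)) (g a) v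
        (fun w => le_max_right _ _) (max_eq_right h).symm
      have := hg v
      omega
    · have := lap_mono G f (fun w => max (f w - f a) (g w - g a)) (f a) v
        (fun w => le_max_left _ _) (max_eq_left h).symm
      have := hf v
      omega
  · exact lap_mono G f _ (f a) v (fun w => le_max_left _ _) (by simp [h1, h2])
  · exact lap_mono G g _ (g a) v (fun w => le_max_right _ _) (by simp [h1, h2])

lemma Reach.feas {G : MGraph V E} {D : V → ℤ} {t : V} (h : Reach G D t) :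
    ∃ f, Feas G D f ∧ 1 ≤ D t - laplacian G f t := by
  obtain ⟨f, hf⟩ := h
  refine ⟨f, fun v => ?_, by simpa using hf t⟩
  have := hf v
  split_ifs at this <;> omega

lemma triple (G : MGraph V E) (D : V → ℤ) (a b c : V) (h : ∀ t, Reach G D t)
    (flat : ∀ f, Feas G D f → f a = f b ∧ f b = f c) :
    ∃ g, Feas G D g ∧ 1 ≤ D a - laplacian G g a ∧ 1 ≤ D b - laplacian G g b ∧
      1 ≤ D c - laplacian G g c := by
  obtain ⟨fa, ha, ha1⟩ := (h a).feas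
  obtain ⟨fb, hb, hb1⟩ := (h b).feas
  obtain ⟨fc, hc, hc1⟩ := (h c).feas
  obtain ⟨g, hg, -, -, -, hg1⟩ := merge G D fa fb ha hb a
  obtain ⟨k, hk, -, -, -, hk1⟩ := merge G D g fc hg hc a
  have a1 := flat fa ha
  have a2 := flat fb hb
  have a3 := flat fc hc
  have a4 := flat g hg
  have b1 := hg1 a rfl rfl
  have b2 := hg1 b a1.1.symm a2.1.symm
  have c1 := hk1 a rfl rfl
  have c2 := hk1 b a4.1.symm a3.1.symm
  have c3 := hk1 c (a4.1.trans a4.2).symm (a3.1.trans a3.2).symm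
  exact ⟨k, hk, by omega, by omega, by omega⟩

lemma cut [Fintype V] (G : MGraph V E) (D f : V → ℤ) (h0 : 0 ≤ D) (hf : Feas G D f) (u w : V)
    (hlt : f w < f u) :
    (∑ e, ((if G.src e = u ∧ G.tgt e = w then (1 : ℤ) else 0)
      + (if G.tgt e = u ∧ G.src e = w then 1 else 0))) ≤ ∑ v, D v := by
  have h1 : ∑ v, (if f u ≤ f v then laplacian G f v else 0) ≤ ∑ v, D v := by
    refine Finset.sum_le_sum fun v _ => ?_
    have a := hf v
    have b : 0 ≤ D v := h0 v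
    split_ifs <;> omega
  refine le_trans ?_ h1
  have h2 : ∑ v, (if f u ≤ f v then laplacian G f v else 0)
      = ∑ e, ((if f u ≤ f (G.src e) then f (G.src e) - f (G.tgt e) else 0)
        + (if f u ≤ f (G.tgt e) then f (G.tgt e) - f (G.src e) else 0)) := by
    have : ∀ v, (if f u ≤ f v then laplacian G f v else 0)
        = ∑ e, ((if G.src e = v then (if f u ≤ f v then f v - f (G.tgt e) else 0) else 0)
          + (if G.tgt e = v then (if f u ≤ f v then f v - f (G.src e) else 0) else 0)) := by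
      intro v
      unfold laplacian
      split_ifs <;> simp
    simp only [this]
    rw [Finset.sum_comm]
    refine Finset.sum_congr rfl fun e _ => ?_
    rw [Finset.sum_add_distrib, Finset.sum_ite_eq, Finset.sum_ite_eq]
    simp
  rw [h2]
  refine Finset.sum_le_sum fun e _ => ?_
  by_cases a : G.src e = u ∧ G.tgt e = w
  · have b : ¬ (G.tgt e = u ∧ G.src e = w) := by
      rintro ⟨b1, b2⟩
      rw [← a.1, b2] at hlt
      exact lt_irrefl _ hlt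
    rw [if_pos a, if_neg b, a.1, a.2]
    split_ifs <;> omega
  · rw [if_neg a]
    by_cases b : G.tgt e = u ∧ G.src e = w
    · rw [if_pos b, b.1, b.2]
      split_ifs <;> omega
    · rw [if_neg b]
      split_ifs <;> omega

end gen

def mt (v w : ℕ) : ℤ :=
  (([[0,1,0,0,1,0,0,1,0,0,1,0,0],
     [1,0,9,0,0,1,0,0,0,0,0,0,0],
     [0,9,0,9,0,0,0,0,0,0,1,0,0],
     [0,0,9,0,0,0,0,0,0,1,0,0,0],
     [1,0,0,0,0,9,0,0,1,0,0,0,0],
     [0,1,0,0,9,0,9,0,0,0,0,0,0],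
     [0,0,0,0,0,9,0,0,0,0,0,0,1],
     [1,0,0,0,0,0,0,0,9,0,0,1,0],
     [0,0,0,0,1,0,0,9,0,9,0,0,0],
     [0,0,0,1,0,0,0,0,9,0,0,0,0],
     [1,0,1,0,0,0,0,0,0,0,0,9,0],
     [0,0,0,0,0,0,0,1,0,0,9,0,9],
     [0,0,0,0,0,0,1,0,0,0,0,9,0]] : List (List ℤ)).getD v []).getD w 0

lemma mt_eq : ∀ v w : Fin 13, (∑ e : Fin 82, ((if exG.src e = v ∧ exG.tgt e = w then (1 : ℤ) else 0)
      + (if exG.tgt e = v ∧ exG.src e = w then 1 else 0))) = mt v w := by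
  decide +kernel

lemma sum13 (D : Fin 13 → ℤ) : ∑ v, D v
    = D 0 + D 1 + D 2 + D 3 + D 4 + D 5 + D 6 + D 7 + D 8 + D 9 + D 10 + D 11 + D 12 := by
  simp only [Fin.sum_univ_succ, Fin.sum_univ_zero]
  simp
  ring

lemma lap_ex (f : Fin 13 → ℤ) :
    laplacian exG f 0 = 4 * f 0 - f 1 - f 4 - f 7 - f 10 ∧
    laplacian exG f 1 = (f 1 - f 0) + (f 1 - f 5) + 9 * (f 1 - f 2) ∧
    laplacian exG f 2 = (f 2 - f 10) + 9 * (f 2 - f 1) + 9 * (f 2 - f 3) ∧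
    laplacian exG f 3 = (f 3 - f 9) + 9 * (f 3 - f 2) ∧
    laplacian exG f 4 = (f 4 - f 0) + (f 4 - f 8) + 9 * (f 4 - f 5) ∧
    laplacian exG f 5 = (f 5 - f 1) + 9 * (f 5 - f 4) + 9 * (f 5 - f 6) ∧
    laplacian exG f 6 = (f 6 - f 12) + 9 * (f 6 - f 5) ∧
    laplacian exG f 7 = (f 7 - f 0) + (f 7 - f 11) + 9 * (f 7 - f 8) ∧
    laplacian exG f 8 = (f 8 - f 4) + 9 * (f 8 - f 7) + 9 * (f 8 - f 9) ∧
    laplacian exG f 9 = (f 9 - f 3) + 9 * (f 9 - f 8) ∧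
    laplacian exG f 10 = (f 10 - f 0) + (f 10 - f 2) + 9 * (f 10 - f 11) ∧
    laplacian exG f 11 = (f 11 - f 7) + 9 * (f 11 - f 10) + 9 * (f 11 - f 12) ∧
    laplacian exG f 12 = (f 12 - f 6) + 9 * (f 12 - f 11) := by
  have key : ∀ v : Fin 13, laplacian exG f v = mt v 0 * (f v - f 0) + mt v 1 * (f v - f 1)
      + mt v 2 * (f v - f 2) + mt v 3 * (f v - f 3) + mt v 4 * (f v - f 4) + mt v 5 * (f v - f 5)
      + mt v 6 * (f v - f 6) + mt v 7 * (f v - f 7) + mt v 8 * (f v - f 8) + mt v 9 * (f v - f 9)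
      + mt v 10 * (f v - f 10) + mt v 11 * (f v - f 11) + mt v 12 * (f v - f 12) := by
    intro v
    rw [laplacian_eq_mult, Finset.sum_congr rfl fun w _ => by rw [mt_eq v w], sum13]
    rfl
  refine ⟨?_, ?_, ?_, ?_, ?_, ?_, ?_, ?_, ?_, ?_, ?_, ?_, ?_⟩ <;> rw [key] <;> simp [mt] <;> ring

lemma flat_ex (D f : Fin 13 → ℤ) (h0 : 0 ≤ D) (hs : ∑ v, D v ≤ 8) (hf : Feas exG D f) :
    (f 1 = f 2 ∧ f 2 = f 3) ∧ (f 4 = f 5 ∧ f 5 = f 6) ∧ (f 7 = f 8 ∧ f 8 = f 9) ∧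
      (f 10 = f 11 ∧ f 11 = f 12) := by
  have key : ∀ u w : Fin 13, mt u w = 9 → mt w u = 9 → f u = f w := by
    intro u w h1 h2
    rcases lt_trichotomy (f u) (f w) with h | h | h
    · have := cut exG D f h0 hf w u h
      rw [mt_eq, h2] at this
      omega
    · exact h
    · have := cut exG D f h0 hf u w h
      rw [mt_eq, h1] at this
      omega
  refine ⟨⟨?_, ?_⟩, ⟨?_, ?_⟩, ⟨?_, ?_⟩, ⟨?_, ?_⟩⟩ <;> exact key _ _ (by decide) (by decide)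

lemma lap_flat (f : Fin 13 → ℤ)
    (h : (f 1 = f 2 ∧ f 2 = f 3) ∧ (f 4 = f 5 ∧ f 5 = f 6) ∧ (f 7 = f 8 ∧ f 8 = f 9) ∧
      (f 10 = f 11 ∧ f 11 = f 12)) :
    laplacian exG f 0 = 4 * f 0 - f 1 - f 4 - f 7 - f 10 ∧
    laplacian exG f 1 = 2 * f 1 - f 0 - f 4 ∧
    laplacian exG f 2 = f 1 - f 10 ∧
    laplacian exG f 3 = f 1 - f 7 ∧
    laplacian exG f 4 = 2 * f 4 - f 0 - f 7 ∧
    laplacian exG f 5 = f 4 - f 1 ∧
    laplacian exG f 6 = f 4 - f 10 ∧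
    laplacian exG f 7 = 2 * f 7 - f 0 - f 10 ∧
    laplacian exG f 8 = f 7 - f 4 ∧
    laplacian exG f 9 = f 7 - f 1 ∧
    laplacian exG f 10 = 2 * f 10 - f 0 - f 1 ∧
    laplacian exG f 11 = f 10 - f 7 ∧
    laplacian exG f 12 = f 10 - f 4 := by
  obtain ⟨⟨x1, x2⟩, ⟨x3, x4⟩, ⟨x5, x6⟩, ⟨x7, x8⟩⟩ := h
  obtain ⟨l0, l1, l2, l3, l4, l5, l6, l7, l8, l9, l10, l11, l12⟩ := lap_ex f
  rw [l0, l1, l2, l3, l4, l5, l6, l7, l8, l9, l10, l11, l12, ← x2, ← x1, ← x4, ← x3, ← x6, ← x5,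
    ← x8, ← x7]
  refine ⟨?_, ?_, ?_, ?_, ?_, ?_, ?_, ?_, ?_, ?_, ?_, ?_, ?_⟩ <;> ring

lemma lev (D F g : Fin 13 → ℤ) (d : Fin 13 → ℕ) (h0 : 0 ≤ D) (hs : ∑ v, D v ≤ 8)
    (hF : Feas exG D F) (z3 : F 1 = 0) (hd : ∀ v, (d v : ℤ) = D v - laplacian exG F v)
    (hg : Feas exG D g) (hle : ∀ w, g w - g 1 ≤ F w) :
    ∃ ch c1 c2 c3 : ℕ, ch + c1 ≤ d 1 ∧ c3 ≤ d 2 ∧ c2 ≤ d 3 ∧
        feas (d 0) (d 4) (d 5) (d 6) (d 7) (d 8) (d 9) (d 10) (d 11) (d 12) ch c1 c2 c3 = true ∧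
        D 4 - laplacian exG g 4 = d 4 + 2 * c1 - ch - c2 ∧
        D 5 - laplacian exG g 5 = d 5 + c1 ∧
        D 6 - laplacian exG g 6 = d 6 + c1 - c3 ∧
        D 7 - laplacian exG g 7 = d 7 + 2 * c2 - ch - c3 ∧
        D 8 - laplacian exG g 8 = d 8 + c2 - c1 ∧
        D 9 - laplacian exG g 9 = d 9 + c2 ∧
        D 10 - laplacian exG g 10 = d 10 + 2 * c3 - ch ∧
        D 11 - laplacian exG g 11 = d 11 + c3 - c2 ∧
        D 12 - laplacian exG g 12 = d 12 + c3 - c1 := by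
  obtain ⟨ch, hch⟩ : ∃ c : ℕ, (c : ℤ) = F 0 - (g 0 - g 1) :=
    ⟨_, Int.toNat_of_nonneg (sub_nonneg.2 (hle 0))⟩
  obtain ⟨c1, hc1⟩ : ∃ c : ℕ, (c : ℤ) = F 4 - (g 4 - g 1) :=
    ⟨_, Int.toNat_of_nonneg (sub_nonneg.2 (hle 4))⟩
  obtain ⟨c2, hc2⟩ : ∃ c : ℕ, (c : ℤ) = F 7 - (g 7 - g 1) :=
    ⟨_, Int.toNat_of_nonneg (sub_nonneg.2 (hle 7))⟩
  obtain ⟨c3, hc3⟩ : ∃ c : ℕ, (c : ℤ) = F 10 - (g 10 - g 1) :=
    ⟨_, Int.toNat_of_nonneg (sub_nonneg.2 (hle 10))⟩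
  obtain ⟨l0, l1, l2, l3, l4, l5, l6, l7, l8, l9, l10, l11, l12⟩ :=
    lap_flat g (flat_ex D g h0 hs hg)
  obtain ⟨m0, m1, m2, m3, m4, m5, m6, m7, m8, m9, m10, m11, m12⟩ :=
    lap_flat F (flat_ex D F h0 hs hF)
  have r0 : D 0 - laplacian exG g 0 = d 0 + 4 * ch - c1 - c2 - c3 := by
    rw [l0, hd, m0, hch, hc1, hc2, hc3, z3]; ring
  have r1 : D 1 - laplacian exG g 1 = d 1 - ch - c1 := by rw [l1, hd, m1, hch, hc1, z3]; ring
  have r2 : D 2 - laplacian exG g 2 = d 2 - c3 := by rw [l2, hd, m2, hc3, z3]; ring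
  have r3 : D 3 - laplacian exG g 3 = d 3 - c2 := by rw [l3, hd, m3, hc2, z3]; ring
  have r4 : D 4 - laplacian exG g 4 = d 4 + 2 * c1 - ch - c2 := by
    rw [l4, hd, m4, hch, hc1, hc2]; ring
  have r5 : D 5 - laplacian exG g 5 = d 5 + c1 := by rw [l5, hd, m5, hc1, z3]; ring
  have r6 : D 6 - laplacian exG g 6 = d 6 + c1 - c3 := by rw [l6, hd, m6, hc1, hc3]; ring
  have r7 : D 7 - laplacian exG g 7 = d 7 + 2 * c2 - ch - c3 := by
    rw [l7, hd, m7, hch, hc2, hc3]; ring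
  have r8 : D 8 - laplacian exG g 8 = d 8 + c2 - c1 := by rw [l8, hd, m8, hc1, hc2]; ring
  have r9 : D 9 - laplacian exG g 9 = d 9 + c2 := by rw [l9, hd, m9, hc2, z3]; ring
  have r10 : D 10 - laplacian exG g 10 = d 10 + 2 * c3 - ch := by
    rw [l10, hd, m10, hch, hc3, z3]; ring
  have r11 : D 11 - laplacian exG g 11 = d 11 + c3 - c2 := by rw [l11, hd, m11, hc2, hc3]; ring
  have r12 : D 12 - laplacian exG g 12 = d 12 + c3 - c1 := by rw [l12, hd, m12, hc1, hc3]; ring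
  have a0 := r0 ▸ hg 0
  have a1 := r1 ▸ hg 1
  have a2 := r2 ▸ hg 2
  have a3 := r3 ▸ hg 3
  have a4 := r4 ▸ hg 4
  have a6 := r6 ▸ hg 6
  have a7 := r7 ▸ hg 7
  have a8 := r8 ▸ hg 8
  have a10 := r10 ▸ hg 10
  have a11 := r11 ▸ hg 11
  have a12 := r12 ▸ hg 12
  have goal : ch + c1 ≤ d 1 ∧ c3 ≤ d 2 ∧ c2 ≤ d 3 ∧
      feas (d 0) (d 4) (d 5) (d 6) (d 7) (d 8) (d 9) (d 10) (d 11) (d 12) ch c1 c2 c3 = true := by
    clear l0 l1 l2 l3 l4 l5 l6 l7 l8 l9 l10 l11 l12 m0 m1 m2 m3 m4 m5 m6 m7 m8 m9 m10 m11 m12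
      r0 r1 r2 r3 r4 r5 r6 r7 r8 r9 r10 r11 r12 hch hc1 hc2 hc3 z3 hs
    simp only [feas, Bool.and_eq_true, Nat.ble_eq]
    refine ⟨?_, ?_, ?_, ⟨⟨⟨⟨⟨⟨⟨⟨?_, ?_⟩, ?_⟩, ?_⟩, ?_⟩, ?_⟩, ?_⟩, ?_⟩, ?_⟩⟩
    · zify; linarith only [a1]
    · zify; linarith only [a2]
    · zify; linarith only [a3]
    · zify; linarith only [a6]
    · zify; linarith only [a12]
    · zify; linarith only [a8]
    · zify; linarith only [a11]
    · zify; linarith only [a4]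
    · zify; linarith only [a7]
    · zify; linarith only [a10]
    · zify; linarith only [a0]
    · exact Nat.zero_le _
  exact ⟨ch, c1, c2, c3, goal.1, goal.2.1, goal.2.2.1, goal.2.2.2, r4, r5, r6, r7, r8, r9, r10,
    r11, r12⟩

theorem lower : 8 < dgon exG := by
  refine lt_dgon exG 8 fun D h0 hs h => ?_
  have hs' : ∑ v, D v ≤ 8 := by exact_mod_cast hs
  have flat := fun f hf => flat_ex D f h0 hs' hf
  obtain ⟨g0, f0, p1, p2, p3⟩ := triple exG D 1 2 3 h fun f hf => (flat f hf).1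
  obtain ⟨g1, f1, p4, p5, p6⟩ := triple exG D 4 5 6 h fun f hf => (flat f hf).2.1
  obtain ⟨g2, f2, p7, p8, p9⟩ := triple exG D 7 8 9 h fun f hf => (flat f hf).2.2.1
  obtain ⟨g3, f3, p10, p11, p12⟩ := triple exG D 10 11 12 h fun f hf => (flat f hf).2.2.2
  obtain ⟨k1, hk1, z1, u0, u1, -⟩ := merge exG D g0 g1 f0 f1 1
  obtain ⟨k2, hk2, z2, u2, u3, -⟩ := merge exG D g2 g3 f2 f3 1
  obtain ⟨F, hF, z3, v1, v2, -⟩ := merge exG D k1 k2 hk1 hk2 1
  have w0 : ∀ w, g0 w - g0 1 ≤ F w := fun w => by linarith only [u0 w, v1 w, z1]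
  have w1 : ∀ w, g1 w - g1 1 ≤ F w := fun w => by linarith only [u1 w, v1 w, z1]
  have w2 : ∀ w, g2 w - g2 1 ≤ F w := fun w => by linarith only [u2 w, v2 w, z2]
  have w3 : ∀ w, g3 w - g3 1 ≤ F w := fun w => by linarith only [u3 w, v2 w, z2]
  have flF := (flat F hF).1
  have fl0 := (flat g0 f0).1
  have q1 := lap_mono exG g0 F (g0 1) 1 w0 (by rw [z3]; ring)
  have q2 := lap_mono exG g0 F (g0 1) 2 w0 (by rw [← flF.1, ← fl0.1, z3]; ring)
  have q3 := lap_mono exG g0 F (g0 1) 3 w0 (by rw [← flF.2, ← fl0.2, ← flF.1, ← fl0.1, z3]; ring)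
  obtain ⟨d, hd⟩ : ∃ d : Fin 13 → ℕ, ∀ v, (d v : ℤ) = D v - laplacian exG F v :=
    ⟨fun v => (D v - laplacian exG F v).toNat, fun v => Int.toNat_of_nonneg (hF v)⟩
  have hsum : ∑ v, (d v : ℤ) ≤ 8 := by
    simp only [hd, Finset.sum_sub_distrib, sum_laplacian]
    linarith only [hs']
  rw [sum13] at hsum
  have nr := not_allReach (d 0) (d 1) (d 2) (d 3) (d 4) (d 5) (d 6) (d 7) (d 8) (d 9) (d 10) (d 11)
    (d 12) (by zify; linarith only [hd 1, q1, p1]) (by zify; linarith only [hd 2, q2, p2])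
    (by zify; linarith only [hd 3, q3, p3]) (by zify; linarith only [hsum])
  obtain ⟨a0, a1, a2, a3, b1, b2, b3, bf, r4, r5, r6, -, -, -, -, -, r12⟩ :=
    lev D F g1 d h0 hs' hF z3 hd f1 w1
  obtain ⟨a0', a1', a2', a3', b1', b2', b3', bf', -, -, -, r7, r8, r9, -, -, -⟩ :=
    lev D F g2 d h0 hs' hF z3 hd f2 w2
  obtain ⟨a0'', a1'', a2'', a3'', b1'', b2'', b3'', bf'', -, -, -, -, -, -, r10, r11, r12'⟩ :=
    lev D F g3 d h0 hs' hF z3 hd f3 w3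
  have t12 := f1 12
  have : allReach (d 0) (d 1) (d 2) (d 3) (d 4) (d 5) (d 6) (d 7) (d 8) (d 9) (d 10) (d 11)
      (d 12) = true := by
    unfold allReach
    simp only [Bool.and_eq_true]
    refine ⟨⟨⟨?_, ?_⟩, ?_⟩, ?_⟩
    · rw [Nat.ble_eq]; zify; linarith only [t12, r12, p6, r6]
    · refine reachB_of _ _ _ _ _ _ _ _ _ _ _ _ _ _ a0 a1 a2 a3 b1 b2 b3 ?_ bf
      simp only [Bool.and_eq_true, Nat.ble_eq]
      refine ⟨⟨?_, ?_⟩, ?_⟩
      · zify; linarith only [p4, r4]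
      · zify; linarith only [p5, r5]
      · zify; linarith only [p6, r6]
    · refine reachB_of _ _ _ _ _ _ _ _ _ _ _ _ _ _ a0' a1' a2' a3' b1' b2' b3' ?_ bf'
      simp only [Bool.and_eq_true, Nat.ble_eq]
      refine ⟨⟨?_, ?_⟩, ?_⟩
      · zify; linarith only [p7, r7]
      · zify; linarith only [p8, r8]
      · zify; linarith only [p9, r9]
    · refine reachB_of _ _ _ _ _ _ _ _ _ _ _ _ _ _ a0'' a1'' a2'' a3'' b1'' b2'' b3'' ?_ bf''
      simp only [Bool.and_eq_true, Nat.ble_eq]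
      refine ⟨⟨?_, ?_⟩, ?_⟩
      · zify; linarith only [p10, r10]
      · zify; linarith only [p11, r11]
      · zify; linarith only [p12, r12']
  rw [this] at nr
  exact Bool.noConfusion nr

end Pool.Agent.MP_d0d5df_co
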